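import Pool.Agent.Y831.RC8.Mk8
import Pool.Agent.Y831.RC7.Cov7

set_option autoImplicit false
set_option linter.unusedSectionVars false
set_option linter.unusedVariables false

/-! # The sieve weights for two windows: assembly -/

namespace Pool.Agent.Y831.RC

open Finset Filter Pool.Agent.H256R2.SC

open scoped Classical

theorem cov8_at (ε c C CR C₁ K₀ M₀ θ : ℝ) (hε : 0 < ε) (hε4 : ε ≤ 1 / 16) (hc : 0 < c)
    (hC : 0 < C) (hC₁ : 0 < C₁) (hCR0 : 0 ≤ CR) (hθ0 : 0 < θ) (hθ1 : θ ≤ 1)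
    (hWb : ∀ y : ℝ, 2 ≤ y → c ≤ WW y * Real.log y ∧ WW y * Real.log y ≤ C)
    (hSR : ∀ a b : ℝ, 2 ≤ a → a ≤ b →
    ∑ p ∈ (Finset.Ioc ⌊a⌋₊ ⌊b⌋₊).filter Nat.Prime, (1 : ℝ) / p ≤
      Real.log (Real.log b / Real.log a) + CR / Real.log a)
    (hBH : ∀ (w y : ℝ) (b₀ : ℕ) (m τ : ℝ),
    2 ≤ w → C₁ ≤ Real.log w → w ≤ y → Even b₀ →
    0 ≤ m → τ ≤ 1 → m * (1 / 3) ^ b₀ ≤ Real.exp (-260) * τ →
    ∃ (bl : Fin (PS w y ∅).card → ℕ) (B : ℕ) (M : ℕ → ℕ), (∀ j, Even (M j)) ∧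
      ∀ (κ : Type) [Fintype κ] [DecidableEq κ],
      (∀ h : Fin (PS w y ∅).card → ℝ, (∀ i, 0 ≤ h i) → (∑ i, h i ≤ 1) →
        (∀ i, (Fintype.card κ : ℝ) * (rcp (PS w y ∅) i + h i) ≤ 1 / 2) →
        BHyp (fun i => rcp (PS w y ∅) i + h i) (fun k : κ => BHk bl B M k) m τ) ∧
      ∀ k : κ, Lw (Real.exp (Real.log y * (2 * b₀ + 4))) (BHk bl B M k))
    (hK1 : 1000 ≤ K₀) (hK2 : 100 / ε ^ 2 ≤ K₀) (hK3 : 300 / ε ≤ K₀) (hK4 : 64 / (c * ε) ≤ K₀)
    (hK5 : 72 * (C / (2 * θ)) ≤ K₀) (hK6 : 4 / θ ≤ K₀) (hK7 : 16 / θ ≤ K₀)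
    (hM1 : 10 ≤ M₀) (hM2 : 200 / ε ≤ M₀) (hM3 : C ≤ M₀)
    (hM4 : Real.exp C₁ ≤ M₀) (hM5 : 2 * CR ≤ M₀) (hM6 : 200 / θ ≤ M₀)
    (hM7 : (3 + 1 / θ) / ε ≤ M₀) (hM8 : 800 / θ ≤ M₀) (hM9 : Real.exp CR ≤ M₀)
    (L e : ℝ) (he1 : K₀ ≤ e) (he3 : K₀ * e ^ 3 ≤ Real.exp e) (helog : Real.log (K₀ * e) ≤ e / K₀)
    (a1 : M₀ ≤ L) (a2 : 1 ≤ Real.log L) (a3 : M₀ ≤ L ^ ε) (a4 : Real.log L * M₀ ≤ L) (N₁ : ℝ) (hN₁0 : 0 ≤ N₁)
    (b2 : M₀ * ((Real.exp e) ^ 3 * (N₁ + Real.log L)) ≤ L ^ ((1 + ε) / 2))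
    (heu : e ≤ (1 - ε) * Real.log L)
    (b1 : M₀ * Real.log L ≤ L * Real.exp (-e) / e ^ 2) :
    ∃ (D : Data6 (PS (L ^ (1 + ε)) (Real.exp (L * Real.exp (-e) / e ^ 2)) ∅)
      (PS (Real.exp (L * Real.exp (-e) / e ^ 2)) (Real.exp (ε ^ 2 * L / (100 * e))) ∅))
      (Bd L₁ L₂ : ℝ), Good8 D ((1 / 4 - 3 * ε) * (e * L * WW (L ^ (1 + ε)))) θ Bd L₁ L₂ N₁ ∧
      0 ≤ Bd ∧ Bd ^ 2 ≤ Real.exp (e ^ 2 * Real.exp e) ∧
      L₁ ≤ θ * Real.exp ((1 - ε) * L) ∧ L₂ ≤ θ * Real.exp ((1 - ε) * L) ∧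
      L ^ (1 + ε) ≤ Real.exp (L * Real.exp (-e) / e ^ 2) ∧
      Real.exp (L * Real.exp (-e) / e ^ 2) ≤ Real.exp (ε ^ 2 * L / (100 * e)) := by
  have he1000 : 1000 ≤ e := by linarith only [hK1, he1]
  have he0 : 0 < e := by linarith only [he1000]
  have he1' : 1 ≤ e := by linarith only [he1000]
  have hε4' : ε ≤ 1 / 4 := by linarith only [hε4]
  set l : ℝ := Real.log L with hl
  have hL2 : 2 ≤ L := by linarith only [hM1, a1]
  have hL0 : 0 < L := by linarith only [hL2]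
  have hL1 : 1 ≤ L := by linarith only [hL2]
  have hl0 : 0 ≤ l := by linarith only [a2]
  have hel : e ≤ l := by
    have : 0 ≤ ε * l := mul_nonneg hε.le hl0
    linarith only [this, heu]
  have hM0 : 0 < M₀ := by linarith only [hM1]
  have hlL : l ≤ L := by
    have h1 : 10 * l ≤ M₀ * l := q_mul hM1 hl0
    linarith only [h1, a4, hl0]
  have hExpL : Real.exp e ≤ L := by
    rw [← Real.exp_log hL0]
    exact Real.exp_le_exp.2 hel
  have he3' : e ^ 3 ≤ Real.exp e := q_cube hK1 he1' he3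
  have he30 : 0 ≤ e ^ 3 := by positivity
  have h72 : 72 * (C / (2 * θ)) * e ^ 3 ≤ Real.exp e := (q_mul hK5 he30).trans he3
  have h12 : 12 * (C / (2 * θ)) * e ^ 3 ≤ Real.exp e := by
    have h0 : 0 < C / (2 * θ) := by positivity
    have : 12 * (C / (2 * θ)) ≤ K₀ := by linarith only [hK5, h0]
    exact (q_mul this he30).trans he3
  set Y : ℝ := L * Real.exp (-e) / e ^ 2 with hY
  set Z : ℝ := ε ^ 2 * L / (100 * e) with hZ
  obtain ⟨hYZ, hvZ, hZ0, hY0, _, _⟩ := p_YZ hε hε4' hL0 (hK2.trans he1) he3' hY hZ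
  have hYM : M₀ ≤ Y := by
    have : M₀ * 1 ≤ M₀ * l := mul_le_mul_of_nonneg_left a2 hM0.le
    linarith only [this, b1]
  have hlog1 : Real.log e ≤ e / 20 := q_log1 hK1 he1' helog
  have hlog2 : Real.log (100 * e / ε ^ 2) ≤ ε / 4 * e := q_log2 hε hK1 he1' helog hK2 hK3
  have hCRY : CR / Y ≤ 1 / 2 := by
    rw [div_le_iff₀ hY0]
    linarith only [hM5, hYM]
  have h64 : 64 / ε ≤ 200 / ε := div_le_div_of_nonneg_right (by norm_num) hε.le
  set m₀ : ℕ := ⌈20 * e⌉₊ with hm₀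
  have hm₀1 : 20 * e ≤ m₀ := Nat.le_ceil _
  have hm₀2 : (m₀ : ℝ) < 20 * e + 1 := Nat.ceil_lt_add_one (by positivity)
  obtain ⟨hG₂, hprof⟩ := blk2_prof ε c C CR hε hε4' hc hWb hSR L e Y Z hL1 he1' hY0 hY hZ hYZ hvZ
    hlog1 hlog2 hCRY he1000 (hK4.trans he1) (by linarith only [hM1, hYM])
    (h64.trans (hM2.trans hYM)) m₀ hm₀1
  set w : ℝ := L ^ (1 + ε) with hw
  have hwL : L ≤ w := by
    calc L = L ^ (1:ℝ) := (Real.rpow_one L).symm
      _ ≤ L ^ (1 + ε) := Real.rpow_le_rpow_of_exponent_le hL1 (by linarith only [hε])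
  have hw2 : 2 ≤ w := by linarith only [hwL, hL2]
  have hlw : Real.log w = (1 + ε) * l := by rw [hw, Real.log_rpow hL0]
  have hwy : w ≤ Real.exp Y := q_wy hL0 (by linarith only [hε4]) (by linarith only [hM1]) a2 hw b1
  set y : ℝ := Real.exp Y with hy
  set z : ℝ := Real.exp Z with hz
  have hly : Real.log y = Y := Real.log_exp Y
  have hlz : Real.log z = Z := Real.log_exp Z
  have hyY : Y + 1 ≤ y := Real.add_one_le_exp Y
  have hyz : y ≤ z := Real.exp_le_exp.2 hYZ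
  have hy9 : 9 ≤ y := by linarith only [hyY, hYM, hM1]
  have hz1 : 1 < z := by linarith only [hy9, hyz]
  -- Mertens
  obtain ⟨hWw1, hWw2⟩ := hWb w hw2
  obtain ⟨hWy1, hWy2⟩ := hWb y (by linarith only [hy9])
  rw [hlw] at hWw1 hWw2
  rw [hly] at hWy1 hWy2
  have hV0 := WW_pos y
  have hW0 := WW_pos w
  have hW1 := WW_le_one w
  set V : ℝ := WW y with hV
  set W : ℝ := WW w with hW
  have heLW : 0 ≤ e * L * W := by positivity
  have hε3 : 0 ≤ 1 / 4 - 3 * ε := by linarith only [hε4]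
  set u : ℝ := (1 / 4 - 3 * ε) * (e * L * W) with hu
  have hu0 : 0 ≤ u := mul_nonneg hε3 heLW
  have hu12 : u ≤ (1 / 2 - 3 * ε) * (e * L * W) := by
    rw [hu]
    exact mul_le_mul_of_nonneg_right (by linarith only []) heLW
  have hu12' : 2 * u ≤ (1 / 2 - 3 * ε) * (e * L * W) := by
    have h1 : 2 * u = (1 / 2 - 6 * ε) * (e * L * W) := by rw [hu]; ring
    rw [h1]
    exact mul_le_mul_of_nonneg_right (by linarith only [hε]) heLW
  have hu2 : u ≤ L ^ 2 / 2 := p_u2 hL2 hlL he0.le hel hW0 hW1 hε u hu12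
  obtain ⟨hlam0, _, hlam2⟩ := p_lam hε hε4' hL1 he1' hV0 hW0 hWy2 hY u hu0 hu12
  have hlam1 : u * (V / W) ≤ (1 / 4 - 3 * ε) * (e * L * V) := by
    apply le_of_eq
    rw [hu]
    field_simp
  have huw : 4 * u ≤ w := by
    have := p_uw hL1 a2 he0.le hel hW0 hε hWw2 (hM3.trans a3) (2 * u) hu12'
    linarith only [this]
  set v₀ : ℝ := L * Real.exp (-e) with hv₀
  have hv₀0 : 0 < v₀ := by positivity
  -- the parameters
  set J : ℕ := 2 * ⌈15 * e⌉₊ with hJ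
  have hJe : Even J := even_two_mul _
  have hJ1 : 30 * e ≤ J := by
    have := Nat.le_ceil (15 * e)
    rw [hJ]; push_cast; linarith only [this]
  have hJ2 : (J:ℝ) ≤ 30 * e + 2 := by
    have := (Nat.ceil_lt_add_one (show 0 ≤ 15 * e by positivity)).le
    rw [hJ]; push_cast; linarith only [this]
  have hm₀J : m₀ ≤ J := by
    have : (m₀:ℝ) ≤ J := by linarith only [hm₀2, hJ1, he1000]
    exact_mod_cast this
  set b₀ : ℕ := 2 * ⌈2 * e⌉₊ with hb₀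
  have hb₀e : Even b₀ := even_two_mul _
  have hb₀1 : 4 * e ≤ b₀ := by
    have := Nat.le_ceil (2 * e)
    rw [hb₀]; push_cast; linarith only [this]
  have hb₀2 : (b₀:ℝ) ≤ 4 * e + 2 := by
    have := (Nat.ceil_lt_add_one (show 0 ≤ 2 * e by positivity)).le
    rw [hb₀]; push_cast; linarith only [this]
  set Q : ℝ := Real.exp ((1 / 4 - ε) * L) with hQ
  have hlQ : Real.log Q = (1 / 4 - ε) * L := Real.log_exp _
  have hhalf : 0 ≤ 1 / 4 - ε := by linarith only [hε4]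
  have hlQ0 : 0 ≤ (1 / 4 - ε) * L := mul_nonneg hhalf hL0.le
  have hQ1 : 1 ≤ Q := Real.one_le_exp hlQ0
  set r : ℕ := ⌈Real.log Q / v₀⌉₊ with hr
  have hr1 : Real.log Q / v₀ ≤ r := Nat.le_ceil _
  have hrv : Real.log Q / v₀ ≤ Real.exp e / 4 := by
    rw [hlQ, hv₀, div_le_iff₀ (by positivity), Real.exp_neg]
    have e1 : Real.exp e / 4 * (L * (Real.exp e)⁻¹) = L / 4 := by
      have := (Real.exp_pos e).ne'
      field_simp
    rw [e1]
    have : 0 ≤ ε * L := by positivity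
    linarith only [this]
  have hexp1000 : 1001 ≤ Real.exp e := by
    have := Real.add_one_le_exp e
    linarith only [this, he1000]
  have hr2 : (r:ℝ) ≤ Real.exp e / 4 + 1 := by
    have := (Nat.ceil_lt_add_one (show 0 ≤ Real.log Q / v₀ by
      apply div_nonneg _ hv₀0.le
      rw [hlQ]
      exact hlQ0)).le
    linarith only [this, hrv]
  have hrm : 2 * (r:ℝ) + 2 ≤ Real.exp e := by linarith only [hr2, hexp1000]
  have hre : 2 * (r:ℝ) ≤ Real.exp e := by linarith only [hrm]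
  have hre1 : (r:ℝ) ≤ Real.exp e := by linarith only [hr2, hexp1000]
  have hC1l : C₁ ≤ l := by
    rw [hl, Real.le_log_iff_exp_le hL0]
    exact hM4.trans a1
  have hεl : 0 ≤ ε * l := mul_nonneg hε.le hl0
  -- the first block
  obtain ⟨bl, B, M, hMe, hbh⟩ := hBH w y b₀ (Real.exp e) (Real.exp (-(2 * e))) hw2
    (by rw [hlw]; linarith only [hC1l, hεl]) hwy hb₀e (Real.exp_pos e).le
    (by rw [Real.exp_le_one_iff]; linarith only [he0]) (q_τ7 he1000 b₀ hb₀1)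
  have hQz : Real.log (Q / z) = (1 / 4 - ε) * L - Z := by
    rw [Real.log_div (Real.exp_pos _).ne' (Real.exp_pos _).ne', hlQ, hlz]
  have hEE : Real.exp (ε * ((1 + ε) * u * (V / W * (1 / ((1 - ε) * V * e))) / Real.log z -
      Real.log (Q / z) / Real.log z)) ≤ Real.exp (-(20 * e)) := by
    apply Real.exp_le_exp.2
    rw [hlz, hQz]
    have h1 := s_exp hε hε4' hL1 he1' hV0 hZ (u * (V / W)) hlam0 hlam1
    have h2 : (1 + ε) * u * (V / W * (1 / ((1 - ε) * V * e))) =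
        (1 + ε) * (u * (V / W) * (1 / ((1 - ε) * V * e))) := by ring
    rw [h2]
    exact h1
  have hEθ : Real.exp (-(20 * e)) ≤ θ / 4 := by
    apply s_small (by positivity)
    have e1 : 1 / (θ / 4) = 4 / θ := by field_simp
    rw [e1]
    linarith only [hK6, he1, he1000]
  have c1 : 2 * (Real.log Q / Real.log y) / y ≤ 1 / L ^ 4 := by
    have h1 := p_δ hε hε4' hL2 (by linarith only [hM1, hYM])
      ((q_mul (by linarith only [hM1]) hl0).trans b1)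
    refine le_trans ?_ h1
    rw [hlQ, hly]
    apply div_le_div_of_nonneg_right _ (Real.exp_pos _).le
    apply mul_le_mul_of_nonneg_left _ (by norm_num)
    apply div_le_div_of_nonneg_right _ hY0.le
    exact mul_le_mul_of_nonneg_right (by linarith only []) hL0.le
  have c3 := s_CB hε hε4' hL2 a2 hlL he0.le hel u hu0 hu2
      ((q_mul ((div_le_div_of_nonneg_right (by norm_num) hε.le).trans hM2) hl0).trans b1)
  have c4 : 200 / ε * Real.log L ≤ L :=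
    (q_mul hM2 hl0).trans (by rw [mul_comm]; exact a4)
  have hεL : 3 + 1 / θ ≤ ε * L := by
    have h1 := hM7.trans a1
    rw [div_le_iff₀ hε] at h1
    linarith only [h1]
  have c5 := s_L hε hε4' hL2 a2 hθ0 c4 (hK3.trans he1) (by linarith only [he1000]) hεL hY hZ
    u hu0 hu2 b₀ J r hb₀2 hJ2 hre
  have hΛ : 1 ≤ Real.exp (Y * (2 * b₀ + 4)) := Real.one_le_exp (by positivity)
  have hbh' : ∀ (κ : Type) [Fintype κ] [DecidableEq κ],
      (∀ h : Fin (PS w y ∅).card → ℝ, (∀ i, 0 ≤ h i) → (∑ i, h i ≤ 1) →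
        (∀ i, (Fintype.card κ : ℝ) * (rcp (PS w y ∅) i + h i) ≤ 1 / 2) →
        BHyp (fun i => rcp (PS w y ∅) i + h i) (fun k : κ => BHk bl B M k) (Real.exp e)
        (Real.exp (-(2 * e)))) ∧
      ∀ k : κ, Lw (Real.exp (Y * (2 * b₀ + 4))) (BHk bl B M k) := by
    intro κ _ _
    have := hbh κ
    rw [hly] at this
    exact this
  have hy0 : 0 < y := by linarith only [hy9]
  have hz0 : 0 < z := by linarith only [hz1]
  have h1ε : 0 < 1 - ε := by linarith only [hε4]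
  have hL10 : L ^ 10 ≤ Real.exp Y := p_pow (L := L) (Y := Y) hL1 10
    (le_trans (q_mul (by push_cast; linarith only [hM1]) hl0) b1)
  have huδ : u * (1 / L ^ 4) ≤ θ / 2 := by
    have hLθ := hM6.trans a1
    rw [div_le_iff₀ hθ0] at hLθ
    calc u * (1 / L ^ 4) ≤ L ^ 2 / 2 * (1 / L ^ 4) := mul_le_mul_of_nonneg_right hu2 (by positivity)
      _ = 1 / 2 * (1 / L ^ 2) := by field_simp
      _ ≤ 1 / 2 * (1 / L) := by
          apply mul_le_mul_of_nonneg_left _ (by norm_num)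
          apply one_div_le_one_div_of_le hL0
          nlinarith only [hL2]
      _ ≤ θ / 2 := by
          rw [mul_one_div, div_le_div_iff₀ hL0 (by norm_num)]
          linarith only [hLθ]
  have hYL : Y ≤ L := by
    rw [hY, div_le_iff₀ (by positivity)]
    have e1 : Real.exp (-e) ≤ 1 := Real.exp_le_one_iff.2 (by linarith only [he0])
    have e2 : 1 ≤ e ^ 2 := one_le_pow₀ he1'
    calc L * Real.exp (-e) ≤ L * 1 := mul_le_mul_of_nonneg_left e1 hL0.le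
      _ ≤ L * e ^ 2 := mul_le_mul_of_nonneg_left e2 hL0.le
  have hw0 : 0 < w := by linarith only [hw2]
  have hCRl : CR ≤ l := by
    rw [hl, Real.le_log_iff_exp_le hL0]
    exact hM9.trans a1
  have hS₁ : ∑ i, (rcp (PS w y ∅) i) ^ 2 ≤ 2 * l / w := by
    have e1 : ∑ i, rcp (PS w y ∅) i ≤ 2 * l := by
      refine (sum_rcp_PS w y hy0.le hw0.le).trans ((hSR w y hw2 hwy).trans ?_)
      rw [hlw, hly]
      have g0 : 1 ≤ (1 + ε) * l := by nlinarith only [a2, hεl]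
      have f1 : Y / ((1 + ε) * l) ≤ Y := div_le_self hY0.le g0
      have f2 : 0 < Y / ((1 + ε) * l) := by positivity
      have f3 : Real.log (Y / ((1 + ε) * l)) ≤ l := Real.log_le_log f2 (f1.trans hYL)
      have f4 : CR / ((1 + ε) * l) ≤ CR := div_le_self hCR0 g0
      linarith only [f3, f4, hCRl]
    have e2 : ∀ i, (rcp (PS w y ∅) i) ^ 2 ≤ rcp (PS w y ∅) i * (1 / w) := by
      intro i
      have f1 := (PS_mem hy0.le (emb_mem (PS w y ∅) i)).2.1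
      have f2 : rcp (PS w y ∅) i ≤ 1 / w := one_div_le_one_div_of_le hw0 f1.le
      have f3 : 0 ≤ rcp (PS w y ∅) i := by unfold rcp; positivity
      rw [sq]
      exact mul_le_mul_of_nonneg_left f2 f3
    calc ∑ i, (rcp (PS w y ∅) i) ^ 2 ≤ ∑ i, rcp (PS w y ∅) i * (1 / w) :=
          Finset.sum_le_sum (fun i _ => e2 i)
      _ = (∑ i, rcp (PS w y ∅) i) * (1 / w) := by rw [Finset.sum_mul]
      _ ≤ (2 * l) * (1 / w) := mul_le_mul_of_nonneg_right e1 (by positivity)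
      _ = 2 * l / w := by ring
  set sw : ℝ := L ^ ((1 + ε) / 2) with hswd
  have hsw0 : 0 < sw := Real.rpow_pos_of_pos hL0 _
  have hsw2 : sw ^ 2 = w := by
    rw [hswd, hw, ← Real.rpow_natCast, ← Real.rpow_mul hL0.le]
    congr 1
    push_cast
    ring
  have hsw1 : 1 ≤ sw := Real.one_le_rpow hL1 (by linarith only [hε])
  have hr00 : (0:ℝ) ≤ r := Nat.cast_nonneg r
  have hE1 : 1 ≤ Real.exp e := by linarith only [hexp1000]
  have hE13 : Real.exp e ≤ (Real.exp e) ^ 3 := by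
    calc Real.exp e = (Real.exp e) ^ 1 := (pow_one _).symm
      _ ≤ (Real.exp e) ^ 3 := pow_le_pow_right₀ hE1 (by norm_num)
  have hr3 : (r:ℝ) ^ 3 ≤ (Real.exp e) ^ 3 := pow_le_pow_left₀ hr00 hre1 3
  have hr2' : (r:ℝ) ^ 2 ≤ (Real.exp e) ^ 3 :=
    (pow_le_pow_left₀ hr00 hre1 2).trans (pow_le_pow_right₀ hE1 (by norm_num))
  have hr1' : (r:ℝ) ≤ (Real.exp e) ^ 3 := hre1.trans hE13
  have hM800 : 800 ≤ θ * M₀ := by
    rw [div_le_iff₀ hθ0] at hM8
    linarith only [hM8]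
  have hM800' : 800 ≤ M₀ := by
    have : θ * M₀ ≤ 1 * M₀ := mul_le_mul_of_nonneg_right hθ1 hM0.le
    linarith only [this, hM800]
  have hE30 : 0 < (Real.exp e) ^ 3 := by positivity
  have d1 : M₀ * ((Real.exp e) ^ 3 * N₁) ≤ sw := by
    refine le_trans ?_ b2
    apply mul_le_mul_of_nonneg_left _ hM0.le
    apply mul_le_mul_of_nonneg_left _ hE30.le
    linarith only [hl0]
  have d2 : M₀ * ((Real.exp e) ^ 3 * l) ≤ sw := by
    refine le_trans ?_ b2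
    apply mul_le_mul_of_nonneg_left _ hM0.le
    apply mul_le_mul_of_nonneg_left _ hE30.le
    linarith only [hN₁0]
  have d3 : M₀ * (Real.exp e) ^ 3 ≤ sw := by
    refine le_trans ?_ d2
    apply mul_le_mul_of_nonneg_left _ hM0.le
    have := mul_le_mul_of_nonneg_left a2 hE30.le
    linarith only [this]
  have hrsw : 16 * (r:ℝ) ≤ sw := by
    have q1 : 800 * (Real.exp e) ^ 3 ≤ M₀ * (Real.exp e) ^ 3 :=
      mul_le_mul_of_nonneg_right hM800' hE30.le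
    linarith only [q1, d3, hr1', hr00]
  -- bounds for the two error terms, for `s ≤ (exp e)^3`
  have t1 : ∀ s : ℝ, s ≤ (Real.exp e) ^ 3 → M₀ * (s * (2 * l / w)) ≤ 2 := by
    intro s hs
    have q1 : s * l ≤ (Real.exp e) ^ 3 * l := mul_le_mul_of_nonneg_right hs hl0
    have q2 : M₀ * (s * l) ≤ sw := (mul_le_mul_of_nonneg_left q1 hM0.le).trans d2
    have q3 : M₀ * (s * (2 * l / w)) = 2 * (M₀ * (s * l)) / w := by ring
    rw [q3, div_le_iff₀ hw0, ← hsw2]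
    nlinarith only [q2, hsw1]
  have t2 : ∀ s : ℝ, s ≤ (Real.exp e) ^ 3 → M₀ * (s * N₁ / sw) ≤ 1 := by
    intro s hs
    have q1 : s * N₁ ≤ (Real.exp e) ^ 3 * N₁ := mul_le_mul_of_nonneg_right hs hN₁0
    have q2 : M₀ * (s * N₁) ≤ sw := (mul_le_mul_of_nonneg_left q1 hM0.le).trans d1
    rw [← mul_div_assoc, div_le_iff₀ hsw0]
    linarith only [q2]
  have hmass : 4 * (r:ℝ) * (2 * l / w) + (r:ℝ) ^ 2 * N₁ / sw ≤ 1 := by
    have q1 := t1 r hr1'
    have q2 := t2 ((r:ℝ) ^ 2) hr2'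
    have q3 : 0 ≤ (r:ℝ) * (2 * l / w) := by positivity
    have q4 : 0 ≤ (r:ℝ) ^ 2 * N₁ / sw := by positivity
    have q5 := mul_le_mul_of_nonneg_right hM800' q3
    have q6 := mul_le_mul_of_nonneg_right hM800' q4
    linarith only [q1, q2, q5, q6]
  have hx0 : 0 ≤ 16 * (r:ℝ) ^ 2 * (2 * l / w) + 16 * r / sw * ((r:ℝ) ^ 2 * N₁) := by positivity
  have hxθ : 16 * (r:ℝ) ^ 2 * (2 * l / w) + 16 * r / sw * ((r:ℝ) ^ 2 * N₁) ≤ θ / 8 := by
    have q1 := t1 ((r:ℝ) ^ 2) hr2'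
    have q2 := t2 ((r:ℝ) ^ 3) hr3
    have q3 : 0 ≤ (r:ℝ) ^ 2 * (2 * l / w) := by positivity
    have q4 : 0 ≤ (r:ℝ) ^ 3 * N₁ / sw := by positivity
    have q5 := mul_le_mul_of_nonneg_right hM800 q3
    have q6 := mul_le_mul_of_nonneg_right hM800 q4
    have q7 := mul_le_mul_of_nonneg_left q1 hθ0.le
    have q8 := mul_le_mul_of_nonneg_left q2 hθ0.le
    have q9 : 16 * (r:ℝ) ^ 2 * (2 * l / w) + 16 * r / sw * ((r:ℝ) ^ 2 * N₁) =
        16 * ((r:ℝ) ^ 2 * (2 * l / w)) + 16 * ((r:ℝ) ^ 3 * N₁ / sw) := by ring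
    rw [q9]
    linarith only [q5, q6, q7, q8, hθ0]
  obtain ⟨D, hD⟩ := good8_core (PP₁ := PS w y ∅) (PP₂ := PS y z ∅) w y z
    (1 / ((1 - ε) * V * e)) Q (1 / L ^ 4) ε (1 + ε / 16)
    (Real.exp ((1 / 4 - ε) * (1 + ε / 16) * L + 1)) (11 / 10 * e) v₀ (Real.exp e)
    (Real.exp (-(2 * e))) (Real.exp (Y * (2 * b₀ + 4))) (Real.exp (24 * e)) θ u sw (2 * l / w)
    N₁ J m₀ r hJe hm₀J
    hθ0 hθ1 (fun p hp => PS_mem hy0.le hp) (fun p hp => PS_mem hz0.le hp)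
    (card_PS y z hz1.le) (rho_PS w y hw2 hwy)
    hw2 hwy hyz hy9 hz1 hQ1 hε (by linarith only [hε4]) (by linarith only [hε]) hG₂ hprof
    c1 (by positivity) hu0 (by positivity) (Real.exp_pos _).le
    (by rw [Real.exp_le_one_iff]; linarith only [he0])
    hΛ bl B M hMe hbh' hsw1 hrsw hsw2.le hS₁ hmass hN₁0 hr1 hrm (Real.one_le_exp (by positivity)) huw huδ hv₀0 c3
    (hEE.trans hEθ)
    (s_tail he1' hC.le hθ0 h72 (u * (V / W)) hlam0 hlam2 hExpL _ hEE)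
    (s_mom he1' hC.le hθ0 h12 (u * (V / W)) hlam0 hlam2 J hJ1)
    (s_pen he1' hC.le hθ0 h12 (u * (V / W)) hlam0 hlam2)
    (s_pair7 hθ0 hθ1 (hM8.trans a1) hL2 (hK7.trans he1) he0.le (hel.trans hlL) u hu0 hu2 hL10
      hx0 hxθ)
  refine ⟨D, _, _, _, hD, by positivity, ?_, c5.1, c5.2, hwy, hyz⟩
  exact p_loss K₀ hK1 he1000 helog J r hJ2 hre1

end Pool.Agent.Y831.RC
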