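import Pool.Agent.Y831.RC8.Cov8
import Pool.Agent.Y831.RC5.Cov5b

set_option autoImplicit false
set_option linter.unusedSectionVars false
set_option linter.unusedVariables false

/-! # Many windows: the covering theorem -/

namespace Pool.Agent.Y831.RC

open Finset Filter Pool.Agent.H256R2.SC

open scoped Classical

theorem cov8 (ε θ : ℝ) (hε : 0 < ε) (hε8 : ε ≤ 1 / 16) (hθ0 : 0 < θ) (hθ1 : θ ≤ 1) :
    ∃ e₀ L₀ M₁ : ℝ, 0 < M₁ ∧ ∀ L : ℝ, L₀ ≤ L →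
    ∀ e : ℝ, e₀ ≤ e → e ≤ (1 - ε) * Real.log L → ∀ N₁ : ℝ, 0 ≤ N₁ →
    M₁ * ((Real.exp e) ^ 3 * (N₁ + Real.log L)) ≤ L ^ ((1 + ε) / 2) →
    ∀ (G : Finset ℕ) (κ : ℕ → Type) [∀ j, Fintype (κ j)] [∀ j, DecidableEq (κ j)],
    (∀ j ∈ G, (Fintype.card (κ j) : ℝ) ≤ (1 / 4 - 3 * ε) * (e * L * WW (L ^ (1 + ε)))) →
    ∀ res : ∀ j, ℕ → κ j → ℤ,
    (∀ p : ℕ, p.Prime → L ^ (1 + ε) < p → ∀ j ∈ G, ∀ k l, k ≠ l →
      ¬ ((p : ℤ) ∣ res j p k - res j p l)) →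
    (∀ p : ℕ, p.Prime → L ^ (1 + ε) < p → Real.exp (L * Real.exp (-e) / e ^ 2) < p →
      ∀ j ∈ G, ∀ j' ∈ G, j ≠ j' → ∀ k l, ¬ ((p : ℤ) ∣ res j p k - res j' p l)) →
    (∀ j ∈ G, ∀ j' ∈ G, j ≠ j' → ∀ k l, ∀ S : Finset ℕ, (∀ p ∈ S, p.Prime ∧ L ^ (1 + ε) < p ∧
      (p : ℤ) ∣ res j p k - res j' p l) → (S.card : ℝ) ≤ N₁) →
    Real.exp (2 * (e ^ 2 * Real.exp e)) ≤ θ * G.card →
    ∀ A B : ℤ, Real.exp ((1 - ε) * L) ≤ (B : ℝ) - A →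
    (((Ioc A B).filter (fun a => ∀ j ∈ G, ¬ ∀ k : κ j, ∃ p : ℕ, p.Prime ∧
      L ^ (1 + ε) < p ∧ (p : ℝ) ≤ Real.exp (ε ^ 2 * L / (100 * e)) ∧
      (p : ℤ) ∣ a - res j p k)).card : ℝ) ≤ 7 * θ * ((B:ℝ) - A) := by
  obtain ⟨c, C, hc, hcC, hWb⟩ := WW_bounds
  obtain ⟨CR, hCR0, hSR⟩ := sum_ratio
  obtain ⟨C₁, hC₁, hBH⟩ := BHyp_PS7
  have hC : 0 < C := hc.trans_le hcC
  have h0a : 0 < 100 / ε ^ 2 := by positivity
  have h0b : 0 < 300 / ε := by positivity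
  have h0c : 0 < 64 / (c * ε) := by positivity
  have h0d : 0 < 200 / ε := by positivity
  have h0e : 0 < 72 * (C / (2 * θ)) := by positivity
  have h0f : 0 < 4 / θ := by positivity
  have h0g : 0 < 200 / θ := by positivity
  have h0h : 0 < (3 + 1 / θ) / ε := by positivity
  have h0i : 0 < 16 / θ := by positivity
  have h0j : 0 < 800 / θ := by positivity
  have h0k := Real.exp_pos CR
  have hE₁ := Real.exp_pos C₁
  obtain ⟨e₀, he₀⟩ := ev_e (1000 + 100 / ε ^ 2 + 300 / ε + 64 / (c * ε) + 72 * (C / (2 * θ)) +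
    4 / θ + 16 / θ) (by linarith only [h0a, h0b, h0c, h0e, h0f, h0i])
  obtain ⟨L₀, hL₀⟩ := ev_L5 ε (10 + 200 / ε + C + Real.exp C₁ + 2 * CR + 200 / θ +
    (3 + 1 / θ) / ε + 800 / θ + Real.exp CR) hε
    (by linarith only [hε8]) (by linarith only [h0d, hC, hE₁, hCR0, h0g, h0h, h0j, h0k])
  refine ⟨max e₀ 1, L₀, 10 + 200 / ε + C + Real.exp C₁ + 2 * CR + 200 / θ +
    (3 + 1 / θ) / ε + 800 / θ + Real.exp CR,
    by linarith only [h0d, hC, hE₁, hCR0, h0g, h0h, h0j, h0k], ?_⟩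
  intro L hL e he heu N₁ hN₁0 b2 G κ _ _ hκ res hi hi2 hi1 hG A B hAB
  obtain ⟨he1, he3, helog⟩ := he₀ e ((le_max_left _ _).trans he)
  obtain ⟨a1, a2, a3, a4, a5⟩ := hL₀ L hL
  have b1 := a5 e ((le_max_right _ _).trans he) heu
  obtain ⟨D, Bd, L₁, L₂, hD, hBd0, hBd, hL₁, hL₂, hwy, hyz⟩ := cov8_at ε c C CR C₁
    (1000 + 100 / ε ^ 2 + 300 / ε + 64 / (c * ε) + 72 * (C / (2 * θ)) + 4 / θ + 16 / θ)
    (10 + 200 / ε + C + Real.exp C₁ + 2 * CR + 200 / θ + (3 + 1 / θ) / ε + 800 / θ +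
    Real.exp CR) θ hε hε8 hc hC
    hC₁ hCR0
    hθ0 hθ1 hWb hSR hBH
    (by linarith only [h0a, h0b, h0c, h0e, h0f, h0i]) (by linarith only [h0a, h0b, h0c, h0e, h0f, h0i])
    (by linarith only [h0a, h0b, h0c, h0e, h0f, h0i]) (by linarith only [h0a, h0b, h0c, h0e, h0f, h0i])
    (by linarith only [h0a, h0b, h0c, h0e, h0f, h0i]) (by linarith only [h0a, h0b, h0c, h0e, h0f, h0i])
    (by linarith only [h0a, h0b, h0c, h0e, h0f, h0i])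
    (by linarith only [h0d, hC, hE₁, hCR0, h0g, h0h, h0j, h0k])
    (by linarith only [h0d, hC, hE₁, hCR0, h0g, h0h, h0j, h0k])
    (by linarith only [h0d, hC, hE₁, hCR0, h0g, h0h, h0j, h0k])
    (by linarith only [h0d, hC, hE₁, hCR0, h0g, h0h, h0j, h0k])
    (by linarith only [h0d, hC, hE₁, hCR0, h0g, h0h, h0j, h0k])
    (by linarith only [h0d, hC, hE₁, hCR0, h0g, h0h, h0j, h0k])
    (by linarith only [h0d, hC, hE₁, hCR0, h0g, h0h, h0j, h0k])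
    (by linarith only [h0d, hC, hE₁, hCR0, h0g, h0h, h0j, h0k])
    (by linarith only [h0d, hC, hE₁, hCR0, h0g, h0h, h0j, h0k])
    L e he1 he3 helog a1 a2 a3 a4 N₁ hN₁0 b2 heu b1
  have hL0 : 0 < L := by linarith only [a1, h0d, hC, hE₁, hCR0, h0g, h0h, h0j, h0k]
  have hw0 : 0 < L ^ (1 + ε) := Real.rpow_pos_of_pos hL0 _
  have hN0 : 0 ≤ (B:ℝ) - A := le_trans (Real.exp_pos _).le hAB
  have hABz : A ≤ B := by
    have : (A:ℝ) ≤ B := by linarith only [hN0]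
    exact_mod_cast this
  have hmem : ∀ p ∈ PS (L ^ (1 + ε)) (Real.exp (L * Real.exp (-e) / e ^ 2)) ∅ ∪
      PS (Real.exp (L * Real.exp (-e) / e ^ 2)) (Real.exp (ε ^ 2 * L / (100 * e))) ∅,
      p.Prime ∧ L ^ (1 + ε) < (p:ℝ) ∧ (p:ℝ) ≤ Real.exp (ε ^ 2 * L / (100 * e)) := by
    intro p hp
    rcases Finset.mem_union.1 hp with h | h
    · obtain ⟨g1, g2, g3⟩ := PS_mem (Real.exp_pos _).le h
      exact ⟨g1, g2, g3.trans hyz⟩
    · obtain ⟨g1, g2, g3⟩ := PS_mem (Real.exp_pos _).le h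
      exact ⟨g1, lt_of_le_of_lt hwy g2, g3⟩
  have hGp : 0 < (G.card : ℝ) := by
    have := (Real.exp_pos _).trans_le hG
    exact pos_of_mul_pos_right this hθ0.le
  have hBd4 : (Bd ^ 2) ^ 2 ≤ θ * G.card := by
    refine le_trans ?_ hG
    have h1 := pow_le_pow_left₀ (sq_nonneg Bd) hBd 2
    refine h1.trans (le_of_eq ?_)
    rw [← Real.exp_nat_mul]
    push_cast
    rfl
  have hmain := hD.cheb hθ0.le hBd0 G κ hκ res
    (fun p hp j hj k l hkl => hi p (hmem p hp).1 (hmem p hp).2.1 j hj k l hkl)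
    (fun p hp j hj j' hj' hjj k l => by
      obtain ⟨g1, g2, g3⟩ := PS_mem (Real.exp_pos _).le hp
      exact hi2 p g1 (lt_of_le_of_lt hwy g2) g2 j hj j' hj' hjj k l)
    (fun j hj j' hj' hjj k l => hi1 j hj j' hj' hjj k l _ (fun p hp => by
      rw [Finset.mem_filter] at hp
      obtain ⟨g1, g2, g3⟩ := PS_mem (Real.exp_pos _).le hp.1
      exact ⟨g1, g2, hp.2⟩))
    A B hABz (hL₁.trans (mul_le_mul_of_nonneg_left hAB hθ0.le))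
    (hL₂.trans (mul_le_mul_of_nonneg_left hAB hθ0.le)) hGp hBd4
  refine le_trans ?_ hmain
  have hsub : ((Ioc A B).filter (fun a => ∀ j ∈ G, ¬ ∀ k : κ j, ∃ p : ℕ, p.Prime ∧
      L ^ (1 + ε) < p ∧ (p : ℝ) ≤ Real.exp (ε ^ 2 * L / (100 * e)) ∧
      (p : ℤ) ∣ a - res j p k)) ⊆
      ((Ioc A B).filter (fun a => ∀ j ∈ G, ¬ ∀ k : κ j, ∃ p ∈
      PS (L ^ (1 + ε)) (Real.exp (L * Real.exp (-e) / e ^ 2)) ∅ ∪
      PS (Real.exp (L * Real.exp (-e) / e ^ 2)) (Real.exp (ε ^ 2 * L / (100 * e))) ∅,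
      (p : ℤ) ∣ a - res j p k)) := by
    intro a ha
    rw [Finset.mem_filter] at ha ⊢
    refine ⟨ha.1, fun j hj hk => ha.2 j hj fun k => ?_⟩
    obtain ⟨p, hp, hpd⟩ := hk k
    exact ⟨p, (hmem p hp).1, (hmem p hp).2.1, (hmem p hp).2.2, hpd⟩
  exact_mod_cast Finset.card_le_card hsub

end Pool.Agent.Y831.RC
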