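import Pool.Agent.Y831.RC8.Almost8
import Pool.Agent.Y831.RC7.Full7

set_option autoImplicit false
set_option linter.unusedVariables false

/-! # Long runs in almost all intervals, the full range -/

namespace Pool.Agent.Y831.RC

open Finset Filter Pool.Agent.H256R2.SC

open scoped Classical

/-- in almost all intervals `(n, n + e^T log X]`, `n` in an interval of length `X`, there are
`c log X min (log T) (log log X / 8)` consecutive integers with a prime factor at most `X^δ`, if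
`c < 1 / 4`, uniformly for all `T ≥ T₀` -/
theorem almost10 (c δ η : ℝ) (hc : 0 < c) (hc4 : c < 1 / 4) (hδ : 0 < δ) (hη : 0 < η) :
    ∃ T₀ X₀ : ℝ, ∀ X : ℝ, X₀ ≤ X → ∀ T : ℝ, T₀ ≤ T → ∀ M : ℝ,
      (((Ioc ⌊M⌋ ⌊M + X⌋).filter (fun n : ℤ => ¬ LongRun
        (c * (Real.log X * min (Real.log T) (Real.log (Real.log X) / 8))) (X ^ δ)
        (Real.exp T * Real.log X) n)).card : ℝ) ≤ η * X := by
  obtain ⟨T₁, X₁, h1⟩ := almost9 c δ η hc hc4 hδ hη
  refine ⟨max T₁ 1, max X₁ (Real.exp (max T₁ 1 ^ 8)), fun X hX T hT M => ?_⟩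
  have hX1 : X₁ ≤ X := (le_max_left _ _).trans hX
  have hX3 : Real.exp (max T₁ 1 ^ 8) ≤ X := (le_max_right _ _).trans hX
  have hX0 : 0 < X := (Real.exp_pos _).trans_le hX3
  have hL3 : max T₁ 1 ^ 8 ≤ Real.log X := by
    rw [Real.le_log_iff_exp_le hX0]
    exact hX3
  have hm1 : 1 ≤ max T₁ 1 := le_max_right _ _
  have hm0 : 0 ≤ max T₁ 1 := by linarith
  have hL1 : 1 ≤ Real.log X := (one_le_pow₀ hm1).trans hL3
  have hL0 : 0 < Real.log X := by linarith
  have hs : max T₁ 1 ≤ (Real.log X) ^ (1 / 8 : ℝ) := by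
    have e1 := Real.rpow_le_rpow (pow_nonneg hm0 8) hL3 (show (0:ℝ) ≤ 1 / 8 by norm_num)
    have e2 : (max T₁ 1 ^ 8) ^ (1 / 8 : ℝ) = max T₁ 1 := by
      rw [← Real.rpow_natCast, ← Real.rpow_mul hm0]
      norm_num
    rwa [e2] at e1
  have hlogs : Real.log ((Real.log X) ^ (1 / 8 : ℝ)) = Real.log (Real.log X) / 8 := by
    rw [Real.log_rpow hL0]
    ring
  have hsub : ∀ T' : ℝ, T' ≤ T →
      min (Real.log T) (Real.log (Real.log X) / 8) ≤ Real.log T' →
      (Ioc ⌊M⌋ ⌊M + X⌋).filter (fun n : ℤ => ¬ LongRun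
        (c * (Real.log X * min (Real.log T) (Real.log (Real.log X) / 8)))
        (X ^ δ) (Real.exp T * Real.log X) n) ⊆
        (Ioc ⌊M⌋ ⌊M + X⌋).filter (fun n : ℤ => ¬ LongRun (c * (Real.log X *
        Real.log T')) (X ^ δ) (Real.exp T' * Real.log X) n) := by
    intro T' hT' hlT n hn
    rw [Finset.mem_filter] at hn ⊢
    refine ⟨hn.1, fun hrun => hn.2 (hrun.mono ?_ ?_)⟩
    · exact mul_le_mul_of_nonneg_left (mul_le_mul_of_nonneg_left hlT hL0.le) hc.le
    · exact mul_le_mul_of_nonneg_right (Real.exp_le_exp.2 hT') hL0.le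
  by_cases hTs : T ≤ (Real.log X) ^ (1 / 8 : ℝ)
  · refine le_trans ?_ (h1 X hX1 T ((le_max_left _ _).trans hT) hTs M)
    exact_mod_cast Finset.card_le_card (hsub T le_rfl (min_le_left _ _))
  · push Not at hTs
    refine le_trans ?_ (h1 X hX1 ((Real.log X) ^ (1 / 8 : ℝ)) ((le_max_left _ _).trans hs) le_rfl M)
    exact_mod_cast Finset.card_le_card (hsub _ hTs.le (by rw [hlogs]; exact min_le_right _ _))

end Pool.Agent.Y831.RC
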