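import Pool.Agent.Y831.RC7.Blk7

set_option autoImplicit false
set_option linter.unusedSectionVars false
set_option linter.unusedVariables false

/-! # Projection to the colours that matter -/

namespace Pool.Agent.Y831.RC

open Finset Pool.Agent.H256R2.SC

open scoped Classical

section
variable {α β : Type} [Fintype α] [DecidableEq α] [Fintype β] [DecidableEq β]

noncomputable def rg1 (ψ : β → α) (c : Option α) : Option β :=
  if h : ∃ z, c = some (ψ z) then some h.choose else none

theorem rg1_iff {ψ : β → α} (hψ : Function.Injective ψ) (c : Option α) (z : β) :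
    rg1 ψ c = some z ↔ c = some (ψ z) := by
  unfold rg1
  constructor
  · intro h
    split_ifs at h with h1
    rw [← Option.some.inj h]
    exact h1.choose_spec
  · intro h
    have h1 : ∃ z, c = some (ψ z) := ⟨z, h⟩
    rw [dif_pos h1]
    congr 1
    have h2 := h1.choose_spec
    exact (hψ (Option.some.inj (h.symm.trans h2))).symm

theorem push_wt (g : ℝ) {ψ : β → α} (hψ : Function.Injective ψ) (b : Option β) :
    ∑ c : Option α, (if rg1 ψ c = b then wt g c else 0) = wt g b := by
  have hsome : ∀ z : β, ∑ c : Option α, (if rg1 ψ c = some z then wt g c else 0) = g := by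
    intro z
    rw [Finset.sum_eq_single (some (ψ z))]
    · rw [if_pos ((rg1_iff hψ _ z).2 rfl)]
      rfl
    · intro c _ hc
      rw [if_neg]
      intro h
      exact hc ((rg1_iff hψ _ z).1 h)
    · intro h
      exact absurd (Finset.mem_univ _) h
  have htot : ∑ b : Option β, ∑ c : Option α, (if rg1 ψ c = b then wt g c else 0) = 1 := by
    rw [Finset.sum_comm]
    have : ∀ c : Option α, ∑ b : Option β, (if rg1 ψ c = b then wt g c else 0) = wt g c := by
      intro c
      rw [Finset.sum_ite_eq]
      simp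
    rw [Finset.sum_congr rfl fun c _ => this c]
    exact sum_wt7 g
  cases b with
  | some z => exact hsome z
  | none =>
    rw [Fintype.sum_option] at htot
    rw [Finset.sum_congr rfl fun z _ => hsome z, Finset.sum_const, nsmul_eq_mul,
      Finset.card_univ] at htot
    show _ = 1 - (Fintype.card β : ℝ) * g
    linarith

theorem EE_push {n : ℕ} (g : Fin n → ℝ) {ψ : Fin n → β → α} (hψ : ∀ i, Function.Injective (ψ i))
    (F : Col n β → ℝ) :
    EE g (fun X : Col n α => F (fun i => rg1 (ψ i) (X i))) = EE g F := by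
  have e1 : ∀ y : Col n β, ∏ i, wt (g i) (y i) =
      ∑ X : Col n α, ∏ i, (if rg1 (ψ i) (X i) = y i then wt (g i) (X i) else 0) := by
    intro y
    have : ∏ i, wt (g i) (y i) =
        ∏ i, ∑ c : Option α, (if rg1 (ψ i) c = y i then wt (g i) c else 0) :=
      Finset.prod_congr rfl fun i _ => (push_wt (g i) (hψ i) (y i)).symm
    rw [this, Finset.prod_univ_sum, Fintype.piFinset_univ]
  unfold EE
  simp only [e1, Finset.sum_mul]
  have e2 : ∀ X : Col n α, (∏ i, wt (g i) (X i)) * F (fun i => rg1 (ψ i) (X i)) =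
      ∑ y : Col n β, (∏ i, (if rg1 (ψ i) (X i) = y i then wt (g i) (X i) else 0)) * F y := by
    intro X
    rw [Finset.sum_eq_single (fun i => rg1 (ψ i) (X i))]
    · congr 1
      refine Finset.prod_congr rfl fun i _ => ?_
      rw [if_pos rfl]
    · intro y _ hy
      have : ∃ i, ¬ (rg1 (ψ i) (X i) = y i) := by
        by_contra hc
        push Not at hc
        apply hy
        funext i
        exact (hc i).symm
      obtain ⟨i, hi⟩ := this
      rw [Finset.prod_eq_zero (Finset.mem_univ i) (if_neg hi), zero_mul]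
    · intro h
      exact absurd (Finset.mem_univ _) h
  rw [Finset.sum_congr rfl fun X _ => e2 X, Finset.sum_comm]

end

section
variable {n : ℕ} {κ κ' : Type} [Fintype κ] [DecidableEq κ] [Fintype κ'] [DecidableEq κ']

theorem reduce8 (K : Finset κ) (K' : Finset κ') (tm : Fin n → κ' → κ ⊕ κ')
    (htm : ∀ i, Function.Injective (tm i))
    (htm2 : ∀ i l, tm i l = Sum.inr l ∨ ∃ k, tm i l = Sum.inl k) (bl : Fin n → ℕ) (B : ℕ)
    (M : ℕ → ℕ) (g : Fin n → ℝ) :
    ∃ tm' : Fin n → K' → K ⊕ K', (∀ i, Function.Injective (tm' i)) ∧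
      (∀ i, tm' i ≠ Sum.inr → ∃ k ∈ K, ∃ l ∈ K', tm i l = Sum.inl k) ∧
      EE g (fun X : Col n (κ ⊕ κ') => (∏ k ∈ K, (BHk bl B M k (lc X)) ^ 2) *
        ∏ k ∈ K', (BHk bl B M k (rcm tm X)) ^ 2) =
      EE g (fun Y : Col n (K ⊕ K') => (∏ k : K, (BHk bl B M k (lc Y)) ^ 2) *
        ∏ k : K', (BHk bl B M k (rcm tm' Y)) ^ 2) := by
  set tm' : Fin n → K' → K ⊕ K' := fun i l =>
    if h : ∃ k : K, tm i l.1 = Sum.inl k.1 then Sum.inl h.choose else Sum.inr l with htm'
  set ψ : Fin n → K ⊕ K' → κ ⊕ κ' := fun i => Sum.elim (fun k => Sum.inl k.1)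
    (fun l => if (∃ k : K, tm i l.1 = Sum.inl k.1) then Sum.inr l.1 else tm i l.1) with hψ
  have key : ∀ i l, ψ i (tm' i l) = tm i l.1 := by
    intro i l
    simp only [htm', hψ]
    by_cases h : ∃ k : K, tm i l.1 = Sum.inl k.1
    · rw [dif_pos h, Sum.elim_inl]
      exact h.choose_spec.symm
    · rw [dif_neg h, Sum.elim_inr, if_neg h]
  have hψi : ∀ i, Function.Injective (ψ i) := by
    intro i a b hab
    rcases a with a | a <;> rcases b with b | b
    · simp only [hψ, Sum.elim_inl] at hab
      rw [Subtype.ext (Sum.inl.inj hab)]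
    · simp only [hψ, Sum.elim_inl, Sum.elim_inr] at hab
      split_ifs at hab with h
      exact absurd ⟨a, hab.symm⟩ h
    · simp only [hψ, Sum.elim_inl, Sum.elim_inr] at hab
      split_ifs at hab with h
      exact absurd ⟨b, hab⟩ h
    · simp only [hψ, Sum.elim_inr] at hab
      congr 1
      apply Subtype.ext
      split_ifs at hab with h1 h2 h2
      · exact Sum.inr.inj hab
      · rcases htm2 i b.1 with h3 | ⟨k, h3⟩
        · rw [h3] at hab
          exact Sum.inr.inj hab
        · rw [h3] at hab
          exact absurd hab (by simp)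
      · rcases htm2 i a.1 with h3 | ⟨k, h3⟩
        · rw [h3] at hab
          exact Sum.inr.inj hab
        · rw [h3] at hab
          exact absurd hab (by simp)
      · exact htm i hab
  have htmi : ∀ i, Function.Injective (tm' i) := by
    intro i l l' hll
    have h1 := congrArg (ψ i) hll
    rw [key, key] at h1
    exact Subtype.ext (htm i h1)
  refine ⟨tm', htmi, ?_, ?_⟩
  · intro i hi
    by_contra hc
    push Not at hc
    apply hi
    funext l
    simp only [htm']
    rw [dif_neg]
    rintro ⟨k, hk⟩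
    exact hc k.1 k.2 l.1 l.2 hk
  · rw [← EE_push (α := κ ⊕ κ') g hψi]
    congr 1
    funext X
    have h1 : ∏ k ∈ K, (BHk bl B M k (lc X)) ^ 2 =
        ∏ k : K, (BHk bl B M k (lc (fun i => rg1 (ψ i) (X i)))) ^ 2 := by
      rw [← Finset.prod_coe_sort K]
      refine Finset.prod_congr rfl fun k _ => ?_
      congr 1
      apply BHk_congr
      intro i
      unfold lc
      rw [lc1_iff, lc1_iff, rg1_iff (hψi i)]
      rfl
    have h2 : ∏ k ∈ K', (BHk bl B M k (rcm tm X)) ^ 2 =
        ∏ k : K', (BHk bl B M k (rcm tm' (fun i => rg1 (ψ i) (X i)))) ^ 2 := by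
      rw [← Finset.prod_coe_sort K']
      refine Finset.prod_congr rfl fun k _ => ?_
      congr 1
      apply BHk_congr
      intro i
      rw [rcm_iff htm, rcm_iff htmi, rg1_iff (hψi i), key]
    rw [h1, h2]

end

end Pool.Agent.Y831.RC
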